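import Pool.Agent.Helper14.CKS.Grp

/-!
# Products of reductive linear groups of real rank one: definitions

`S` is a group with homomorphisms `π i` to the groups `GL(n i, ℝ)`: the product of the groups `G i`
with the coordinates.
-/

set_option autoImplicit false

namespace Pool.Agent.Helper20.RPN

open Matrix Module Pool.Agent.Helper14.CKS

/-- The real rank of `G` is at most one and `pSpace G` is not a line: two commuting elements of
`pSpace G` are linearly dependent, and the dimension of `pSpace G` is not `1`. -/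
def IsRankOne {n : ℕ} (G : Subgroup (GL (Fin n) ℝ)) : Prop :=
  (∀ X ∈ pSpace G, ∀ Y ∈ pSpace G, X * Y = Y * X → ¬ LinearIndependent ℝ ![X, Y]) ∧
    finrank ℝ (pSpace G) ≠ 1

variable {S : Type} [Group S] [TopologicalSpace S] {r : ℕ} {n : Fin r → ℕ}

/-- `IsReductive` for a subgroup `H` of the product: `H` is closed, stable under transposition and
contains all real powers of its positive definite elements. -/
def IsReductiveIn (π : ∀ i, S →* GL (Fin (n i)) ℝ) (H : Subgroup S) : Prop :=
  IsClosed (H : Set S) ∧ (∀ h ∈ H, ∃ h' ∈ H, ∀ i, (π i h').val = (π i h).valᵀ) ∧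
  ∀ X : ∀ i, Matrix (Fin (n i)) (Fin (n i)) ℝ, (∀ i, (X i)ᵀ = X i) →
    (∃ h ∈ H, ∀ i, π i h = expGL (X i)) → ∀ t : ℝ, ∃ h ∈ H, ∀ i, π i h = expGL (t • X i)

/-- The space `p_H` of the Cartan decomposition of `H`: the families of symmetric matrices `X i` such
that the family of the `exp (X i)` is in `H`. -/
noncomputable def pSub (π : ∀ i, S →* GL (Fin (n i)) ℝ) (H : Subgroup S) :
    Submodule ℝ (∀ i, Matrix (Fin (n i)) (Fin (n i)) ℝ) :=
  Submodule.span ℝ {X | (∀ i, (X i)ᵀ = X i) ∧ ∃ h ∈ H, ∀ i, π i h = expGL (X i)}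

/-- The projection of `p_H` to the sum of the spaces `p i`, `i` in `B`, is bijective. -/
def ProjBij (π : ∀ i, S →* GL (Fin (n i)) ℝ)
    (p : ∀ i, Submodule ℝ (Matrix (Fin (n i)) (Fin (n i)) ℝ)) (H : Subgroup S)
    (B : Finset (Fin r)) : Prop :=
  ∀ Y : ∀ i, Matrix (Fin (n i)) (Fin (n i)) ℝ, (∀ i ∈ B, Y i ∈ p i) →
    ∃! X : ∀ i, Matrix (Fin (n i)) (Fin (n i)) ℝ, X ∈ pSub π H ∧ ∀ i ∈ B, X i = Y i

/-- The subgroup `L` of the elements with trivial coordinates in `B`. -/
def cofactor (π : ∀ i, S →* GL (Fin (n i)) ℝ) (B : Finset (Fin r)) : Subgroup S :=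
  ⨅ i ∈ B, (π i).ker

/-- (a) If `S ⧸ H` admits a cocompact discontinuous group, then the projection is bijective for some
`B`. (b) If it is bijective for `B`, then `L` acts properly and cocompactly on `S ⧸ H`, and its
torsion-free cocompact discrete subgroups are cocompact discontinuous groups. (c) If `hlat` holds (the
factors have such subgroups), the converse of (a) is true. -/
def Answer (π : ∀ i, S →* GL (Fin (n i)) ℝ)
    (p : ∀ i, Submodule ℝ (Matrix (Fin (n i)) (Fin (n i)) ℝ)) (H : Subgroup S) (hlat : Prop) :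
    Prop :=
  (AdmitsCocompact H → ∃ B : Finset (Fin r), ProjBij π p H B) ∧
  (∀ B : Finset (Fin r), ProjBij π p H B → ActsProperlyCocompactly (cofactor π B) H ∧
    ∀ Γ : Subgroup S, IsTorsionFreeLattice Γ (cofactor π B) →
      IsCocompactDiscontinuousGroup Γ H) ∧
  (hlat → (AdmitsCocompact H ↔ ∃ B : Finset (Fin r), ProjBij π p H B))

/-- The coordinates of the product of the groups `G i`. -/
def coord (G : ∀ i, Subgroup (GL (Fin (n i)) ℝ)) (i : Fin r) : (∀ i, G i) →* GL (Fin (n i)) ℝ :=
  (G i).subtype.comp (Pi.evalMonoidHom _ i)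

end Pool.Agent.Helper20.RPN
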