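import Pool.Agent.Helper20.RPN.Defs
import Pool.Agent.Helper14.CKS.RankOneProductsMain

/-!
# Products of reductive linear groups of real rank one
-/

set_option autoImplicit false

namespace Pool.Agent.Helper20.RPN

open Matrix Module Pool.Agent.Helper14.CKS

variable {r : ℕ} {n : Fin r → ℕ} {G : ∀ i, Subgroup (GL (Fin (n i)) ℝ)}

theorem cof (B : Finset (Fin r)) : cofactor (coord G) B = Pool.Agent.Helper14.CKS.cofactor G B := by
  ext g
  rw [cofactor, Subgroup.mem_iInf]
  simp only [Subgroup.mem_iInf, MonoidHom.mem_ker]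
  constructor
  · intro h i hi
    exact Subtype.ext (h i hi)
  · intro h i hi
    exact congrArg Subtype.val (h i hi)

theorem main (hG : ∀ i, IsReductive (G i)) (h1 : ∀ i, IsRankOne (G i))
    {H : Subgroup (∀ i, G i)} (hH : IsReductiveIn (coord G) H) :
    Answer (coord G) (fun i => pSpace (G i)) H
      (∀ i, ∃ Γ : Subgroup (G i), IsTorsionFreeLattice Γ ⊤) := by
  have hH' : Pool.Agent.Helper14.CKS.IsReductiveIn H := hH
  obtain ⟨ha, hb, hc⟩ := Pool.Agent.Helper14.CKS.RankOneProducts.main hG h1 hH'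
  refine ⟨ha, fun B hB => ?_, hc⟩
  rw [cof]
  exact hb B hB

end Pool.Agent.Helper20.RPN
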